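import Pool.Agent.H.MP_626dc7_co.Main

set_option autoImplicit false

namespace Pool.Agent.Results.MP_626dc7_co.Linear

/-- The Hamilton cycle `π 0, π 1, ..., π (n-1), π 0` is (2,2)-acceptable for `F`. -/
def Acceptable {n : ℕ} (F : Finset (Finset (Fin n))) (π : Equiv.Perm (Fin n)) : Prop :=
  ∀ i j : Fin n,
    Disjoint ({π i, π (finRotate n i)} : Finset (Fin n)) {π j, π (finRotate n j)} →
      ({π i, π (finRotate n i)} : Finset (Fin n)) ∪ {π j, π (finRotate n j)} ∉ F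

theorem result : ∃ c : ℝ, 0 < c ∧ ∃ N : ℕ, ∀ n ≥ N, ∀ F : Finset (Finset (Fin n)),
    (∀ S ∈ F, S.card = 4) → (∀ π, ¬ Acceptable F π) →
      ∃ x y : Fin n, x ≠ y ∧ c * n ≤ ((F.filter fun S => x ∈ S ∧ y ∈ S).card : ℝ) := by
  refine ⟨1 / 2 ^ 22, by positivity, 6, fun n hn F h4 hno => ?_⟩
  by_contra hc
  push Not at hc
  obtain ⟨π, hπ⟩ := H.MP_626dc7_co.main n (n / 2 ^ 22) hn (Nat.mul_div_le _ _) F h4 (by
    intro x y hxy
    have h := hc x y hxy
    rw [Nat.le_div_iff_mul_le (by positivity)]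
    have : (((F.filter fun S => x ∈ S ∧ y ∈ S).card * 2 ^ 22 : ℕ) : ℝ) ≤ n := by
      push_cast; linarith
    exact_mod_cast this)
  exact hno π fun i j _ => hπ i j

end Pool.Agent.Results.MP_626dc7_co.Linear
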